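import Pool.Agent.LE.StmtsQH
import Pool.Agent.Helper51_LQD.GAP

/-!
# Squad LQF (MP_1906c1_mp), row GAL: the gap for the momenta with `|p_i| ≤ M / 8`
-/

set_option autoImplicit false

open MeasureTheory ProbabilityTheory Function Filter

open scoped ENNReal BigOperators Topology NNReal ComplexOrder Matrix

noncomputable section

namespace Pool.Agent.LE.QF.H94

open Pool.Agent.Anderson hiding box mem_box card_box
open Pool.Agent.Loc Pool.Agent.Mob Pool.Agent.Helper54.Bal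
  Pool.Agent.Helper96.EXP Pool.Agent.BED
open Pool.Agent.LE.MN Pool.Agent.LE.CL Pool.Agent.LE.IR Pool.Agent.LE.QD
open Pool.Agent.LE.QD.H51

theorem ds_le' {d M : ℕ} [NeZero M] (p : Tor d M) :
    ds p ≤ (2 * Real.pi / M) ^ 2 * ∑ i, ((p i).valMinAbs : ℝ) ^ 2 := by
  unfold ds
  rw [Finset.mul_sum]
  refine Finset.sum_le_sum fun i _ => ?_
  have h := Real.one_sub_sq_div_two_le_cos (x := 2 * Real.pi * ((p i).valMinAbs : ℝ) / M)
  have e : (2 * Real.pi / M) ^ 2 * ((p i).valMinAbs : ℝ) ^ 2 =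
      (2 * Real.pi * ((p i).valMinAbs : ℝ) / M) ^ 2 := by ring
  rw [e]
  linarith

theorem inv_diff2 {ζ : ℂ} {u v w m s : ℝ} (hw : 0 < w) (hζ : ζ.im = w) (h1 : |u - ζ.re| ≤ w)
    (hs0 : 0 ≤ s) (hs1 : s ≤ 1) (hm0 : 0 ≤ m) (hm1 : m ≤ 1) (h2 : m * w * s ≤ |u - v|) :
    m ^ 2 * s ^ 2 / (18 * w ^ 2) ≤ ‖1 / ((u : ℂ) - ζ) - 1 / ((v : ℂ) - ζ)‖ ^ 2 := by
  have n1 : Complex.normSq ((u : ℂ) - ζ) = (u - ζ.re) ^ 2 + w ^ 2 := by
    rw [Complex.normSq_apply]
    simp only [Complex.sub_re, Complex.sub_im, Complex.ofReal_re, Complex.ofReal_im, hζ]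
    ring
  have n2 : Complex.normSq ((v : ℂ) - ζ) = (v - ζ.re) ^ 2 + w ^ 2 := by
    rw [Complex.normSq_apply]
    simp only [Complex.sub_re, Complex.sub_im, Complex.ofReal_re, Complex.ofReal_im, hζ]
    ring
  have p1 : 0 < Complex.normSq ((u : ℂ) - ζ) := by rw [n1]; positivity
  have p2 : 0 < Complex.normSq ((v : ℂ) - ζ) := by rw [n2]; positivity
  have u0 : (u : ℂ) - ζ ≠ 0 := Complex.normSq_pos.1 p1
  have v0 : (v : ℂ) - ζ ≠ 0 := Complex.normSq_pos.1 p2
  have e1 : 1 / ((u : ℂ) - ζ) - 1 / ((v : ℂ) - ζ) =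
      ((v - u : ℝ) : ℂ) / (((u : ℂ) - ζ) * ((v : ℂ) - ζ)) := by
    field_simp
    push_cast
    ring
  have e2 : ‖1 / ((u : ℂ) - ζ) - 1 / ((v : ℂ) - ζ)‖ ^ 2 =
      |u - v| ^ 2 / (Complex.normSq ((u : ℂ) - ζ) * Complex.normSq ((v : ℂ) - ζ)) := by
    rw [← Complex.normSq_eq_norm_sq, e1, Complex.normSq_div, Complex.normSq_mul,
      Complex.normSq_ofReal, sq_abs]
    congr 1
    ring
  obtain ⟨D, hD⟩ : ∃ D, D = |u - v| := ⟨_, rfl⟩
  have hD0 : 0 ≤ D := hD ▸ abs_nonneg _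
  rw [e2]
  rw [← hD] at h2 ⊢
  have b1 : Complex.normSq ((u : ℂ) - ζ) ≤ 2 * w ^ 2 := by
    rw [n1]
    have := sq_le_sq' (abs_le.1 h1).1 (abs_le.1 h1).2
    linarith
  have b2 : Complex.normSq ((v : ℂ) - ζ) ≤ (D + 2 * w) ^ 2 := by
    rw [n2]
    have h3 : |v - ζ.re| ≤ D + w := by
      have h4 : v - ζ.re = (u - ζ.re) - (u - v) := by ring
      rw [h4]
      refine (abs_sub _ _).trans ?_
      rw [← hD]
      linarith
    have := sq_le_sq' (abs_le.1 h3).1 (abs_le.1 h3).2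
    nlinarith
  have b3 : m * s * (D + 2 * w) ≤ 3 * D := by
    have h3 : m * s ≤ 1 := mul_le_one₀ hm1 hs0 hs1
    have h4 : m * s * D ≤ 1 * D := mul_le_mul_of_nonneg_right h3 hD0
    nlinarith
  have b4 : (m * s * (D + 2 * w)) ^ 2 ≤ (3 * D) ^ 2 :=
    pow_le_pow_left₀ (by positivity) b3 2
  calc m ^ 2 * s ^ 2 / (18 * w ^ 2) ≤ D ^ 2 / ((2 * w ^ 2) * (D + 2 * w) ^ 2) := by
        rw [div_le_div_iff₀ (by positivity) (by positivity)]
        have := mul_le_mul_of_nonneg_right b4 (by positivity : 0 ≤ 2 * w ^ 2)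
        nlinarith
    _ ≤ _ := div_le_div_of_nonneg_left (sq_nonneg _) (mul_pos p1 p2)
        (mul_le_mul b1 b2 p2.le (by positivity))

/-- row GAL -/
theorem gal (gap : GapStmt) (dsl : DslStmt) (dsu : DsuStmt) (ral : RalStmt) (ftb : FtbStmt) :
    GalStmt := by
  intro d δ hd hδ
  obtain ⟨C₁, hC₁, hdsu⟩ := dsu d hd
  obtain ⟨c₁, C₂, hc₁, hc₁', hC₂, hdsl⟩ := dsl d δ hd hδ
  obtain ⟨c₀, C₀, hc₀, hc₀', hC₀, hgap⟩ := gap d δ hd hδ
  have hpi := Real.pi_pos
  have hpi4 := Real.pi_le_four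
  obtain ⟨c, hc⟩ : ∃ c : ℝ, c = min (1 / 2) (min c₀ (min c₁ (c₀ ^ 2 * c₁ / (144 * C₁)))) :=
    ⟨_, rfl⟩
  have hc0 : 0 < c := by
    rw [hc]
    exact lt_min (by norm_num) (lt_min hc₀ (lt_min hc₁ (by positivity)))
  have hc2 : c ≤ 1 / 2 := hc ▸ min_le_left _ _
  have hc3 : c ≤ c₀ := hc ▸ (min_le_right _ _).trans (min_le_left _ _)
  have hc4 : c ≤ c₁ := hc ▸ (min_le_right _ _).trans ((min_le_right _ _).trans (min_le_left _ _))
  have hc5 : c ≤ c₀ ^ 2 * c₁ / (144 * C₁) :=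
    hc ▸ (min_le_right _ _).trans ((min_le_right _ _).trans (min_le_right _ _))
  refine ⟨c, max C₀ (max C₁ C₂), hc0, hc2, hC₀.trans (le_max_left _ _), ?_⟩
  intro M hM ζ p hre him hle hMw hp
  obtain ⟨w, hw⟩ : ∃ w, w = ζ.im := ⟨_, rfl⟩
  rw [← hw] at him hle hMw ⊢
  have hζ : 0 < ζ.im := hw ▸ him
  have hM0 : (0 : ℝ) < M := by exact_mod_cast Nat.pos_of_ne_zero (NeZero.ne M)
  have hMC : ∀ X : ℝ, X ≤ max C₀ (max C₁ C₂) → X / w ≤ M := by
    intro X hX
    refine le_trans ?_ hMw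
    gcongr
  have hM0' : C₀ / w ≤ M := hMC _ (le_max_left _ _)
  have hM1 : C₁ / w ≤ M := hMC _ ((le_max_left _ _).trans (le_max_right _ _))
  have hM2 : C₂ / w ≤ M := hMC _ ((le_max_right _ _).trans (le_max_right _ _))
  have hw1 : w ≤ 1 := by linarith
  have hK0 : 0 ≤ ∑ x : Tor d M, kk ζ x := Finset.sum_nonneg fun x _ => by
    rw [kk_eq]
    positivity
  have hkf0 : kf ζ (0 : Tor d M) = ∑ x : Tor d M, kk ζ x := by
    unfold kf
    refine Finset.sum_congr rfl fun x _ => ?_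
    have e2 : ec (0 : Tor d M) x = 1 := by
      unfold ec
      simp
    rw [e2, Complex.one_re, mul_one]
  -- the upper bound for the sum of the kernel
  have hK : ∑ x : Tor d M, kk ζ x ≤ C₁ / w := by
    obtain ⟨-, -, -, -, h5, -, -, -, -, -, h11, -⟩ := ral d M 0 ζ hζ
    have h1 : ∑ x : Tor d M, kk ζ x = (rs (0 : Tor d M → ℝ) ζ 0 0).im / ζ.im := h5 0
    rw [h1, ← hw]
    refine div_le_div_of_nonneg_right ?_ him.le
    refine le_trans (le_of_eq ?_) (hdsu M ζ.re w him hw1 hM1).1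
    rw [h11]
    unfold pm
    have e1 : ((M : ℂ) ^ d) = (((M : ℝ) ^ d : ℝ) : ℂ) := by push_cast; rfl
    rw [e1, Complex.div_ofReal_im, Complex.im_sum]
    congr 1
    refine Finset.sum_congr rfl fun p _ => ?_
    have e2 : ec p (0 - 0 : Tor d M) = 1 := by
      unfold ec
      simp
    rw [e2, one_div, Complex.inv_im, Complex.normSq_apply]
    simp only [Complex.sub_re, Complex.sub_im, Complex.ofReal_re, Complex.ofReal_im, ← hw]
    congr 1
    · ring
    · ring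
  rw [hkf0]
  by_cases hA : ∀ i, 2 * Real.pi * |((p i).valMinAbs : ℝ)| ≤ c₀ * w * M
  · -- small momenta
    have h1 := hgap M ζ hre hζ (hw ▸ hle.trans hc3) (hw ▸ hM0') p (by rw [← hw]; exact hA)
    rw [← hw] at h1
    have h2 := (le_abs_self _).trans h1
    show ∑ x : Tor d M, kk ζ x * (ec p x).re ≤ _
    refine h2.trans (mul_le_mul_of_nonneg_right ?_ hK0)
    have h3 := ds_le' p
    have h4 : 0 ≤ ds p := by
      unfold ds
      refine Finset.sum_nonneg fun i _ => ?_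
      have := Real.cos_le_one (2 * Real.pi * ((p i).valMinAbs : ℝ) / M)
      linarith
    have h5 : c * min 1 (ds p / w ^ 2) ≤ c₀ * (ds p / w ^ 2) :=
      mul_le_mul hc3 (min_le_right _ _) (le_min zero_le_one (by positivity)) hc₀.le
    have h6 : c₀ * (ds p / w ^ 2) ≤
        c₀ * (2 * Real.pi / M) ^ 2 * (∑ i, ((p i).valMinAbs : ℝ) ^ 2) / w ^ 2 := by
      rw [mul_assoc c₀, mul_div_assoc]
      gcongr
    linarith
  · -- a large momentum
    push Not at hA
    obtain ⟨i, hi⟩ := hA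
    obtain ⟨a, ha⟩ : ∃ a : ℝ, a = 2 * Real.pi * ((p i).valMinAbs : ℝ) / M := ⟨_, rfl⟩
    have ha0 : |a| = 2 * Real.pi * |((p i).valMinAbs : ℝ)| / M := by
      rw [ha, abs_div, abs_mul, abs_of_pos (by positivity : 0 < 2 * Real.pi), abs_of_pos hM0]
    have ha1 : c₀ * w ≤ |a| := by
      rw [ha0, le_div_iff₀ hM0]
      exact hi.le
    have ha2 : |a| ≤ 1 := by
      rw [ha0, div_le_iff₀ hM0, one_mul]
      have := hp i
      nlinarith [abs_nonneg ((p i).valMinAbs : ℝ)]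
    have ha3 : c₀ * w / 2 ≤ |Real.sin a| := by
      have h1 := sin_sq_ge ha2
      have h2 : (|a| / 2) ^ 2 ≤ |Real.sin a| ^ 2 := by
        rw [div_pow, sq_abs, sq_abs]
        linarith
      have h3 : |a| / 2 ≤ |Real.sin a| :=
        (pow_le_pow_iff_left₀ (by positivity) (abs_nonneg _) two_ne_zero).1 h2
      linarith
    have h1 := refl_bound ral hζ p i
    have h2 : ∑ x : Tor d M, kk ζ x * (2 * (1 - (ec (Pi.single i (2 * p i)) x).re)) / 8 ≤
        (∑ x : Tor d M, kk ζ x) - ∑ x, kk ζ x * |(ZMod.stdAddChar (p i * x i) : ℂ).re| := by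
      rw [← Finset.sum_sub_distrib]
      refine Finset.sum_le_sum fun x _ => ?_
      have e1 : ec (Pi.single i (2 * p i)) x = ZMod.stdAddChar (2 * (p i * x i)) := by
        unfold ec
        rw [Finset.prod_eq_single i]
        · rw [Pi.single_eq_same, mul_assoc]
        · intro j _ hj
          rw [Pi.single_eq_of_ne hj, zero_mul, AddChar.map_zero_eq_one]
        · intro h
          exact absurd (Finset.mem_univ _) h
      rw [e1]
      have e2 := chi_gap (p i * x i)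
      have e3 : 0 ≤ kk ζ x := by
        rw [kk_eq]
        positivity
      nlinarith
    rw [← Finset.sum_div, parseval ral ftb hζ] at h2
    have h3 : c₀ ^ 2 / (18 * w ^ 2) * (c₁ * w) ≤ pm fun k : Tor d M =>
        ‖1 / ((es k : ℂ) - ζ) - 1 / ((es (k - Pi.single i (2 * p i)) : ℂ) - ζ)‖ ^ 2 := by
      have h4 := hdsl M ζ.re w a i hre him (hle.trans hc4) hM2
      refine (mul_le_mul_of_nonneg_left h4 (by positivity)).trans ?_
      unfold pm
      rw [mul_div_assoc', Finset.mul_sum]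
      refine div_le_div_of_nonneg_right (Finset.sum_le_sum fun k _ => ?_) (by positivity)
      split_ifs with h5
      · have h6 := es_diff' k p i
        rw [← ha] at h6
        have h7 : c₀ * w * |Real.sin (2 * Real.pi * ((k i).valMinAbs : ℝ) / M - a)| ≤
            |es k - es (k - Pi.single i (2 * p i))| := by
          rw [h6, abs_neg, abs_mul, abs_mul]
          have s3 : |(4 : ℝ)| = 4 := by norm_num
          rw [s3]
          refine mul_le_mul_of_nonneg_right ?_ (abs_nonneg _)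
          have : 0 < c₀ * w := by positivity
          linarith
        refine le_trans (le_of_eq ?_) (inv_diff2 him hw.symm h5 (abs_nonneg _)
          (Real.abs_sin_le_one _) hc₀.le hc₀' h7)
        rw [sq_abs]
        ring
      · rw [mul_zero]
        positivity
    have h4 : c₀ ^ 2 * c₁ / (144 * w) ≤ (∑ x : Tor d M, kk ζ x) -
        ∑ x, kk ζ x * |(ZMod.stdAddChar (p i * x i) : ℂ).re| := by
      refine le_trans ?_ h2
      refine le_trans (le_of_eq ?_) (div_le_div_of_nonneg_right h3 (by norm_num))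
      field_simp
      ring
    have h5 : c * ∑ x : Tor d M, kk ζ x ≤ c₀ ^ 2 * c₁ / (144 * w) := by
      refine (mul_le_mul hc5 hK hK0 (by positivity)).trans (le_of_eq ?_)
      field_simp
    have h6 : c * min 1 (ds p / w ^ 2) ≤ c * 1 :=
      mul_le_mul_of_nonneg_left (min_le_left _ _) hc0.le
    have h7 : c * min 1 (ds p / w ^ 2) * ∑ x : Tor d M, kk ζ x ≤ c * ∑ x : Tor d M, kk ζ x := by
      refine mul_le_mul_of_nonneg_right ?_ hK0
      linarith
    have h8 := (le_abs_self _).trans h1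
    show ∑ x : Tor d M, kk ζ x * (ec p x).re ≤ _
    rw [sub_mul, one_mul]
    linarith

end Pool.Agent.LE.QF.H94
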