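import Pool.Agent.LE.StmtsQH

/-!
# Squad LQF (MP_1906c1_mp), row BQB: the ladder `B` for all momenta
-/

set_option autoImplicit false

open MeasureTheory ProbabilityTheory Function Filter

open scoped ENNReal BigOperators Topology NNReal ComplexOrder Matrix

noncomputable section

namespace Pool.Agent.LE.QF.H94

open Pool.Agent.Anderson hiding box mem_box card_box
open Pool.Agent.Loc Pool.Agent.Mob Pool.Agent.Helper54.Bal
  Pool.Agent.Helper96.EXP Pool.Agent.BED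
open Pool.Agent.LE.MN Pool.Agent.LE.CL Pool.Agent.LE.IR Pool.Agent.LE.QD

theorem cos_two (y c : ℝ) :
    2 * Real.cos (y + c) + 2 * Real.cos (y - c) = 4 * (Real.cos y * Real.cos c) := by
  rw [Real.cos_add, Real.cos_sub]
  ring

theorem cos_sub (M : ℕ) [NeZero M] (a b : ZMod M) :
    Real.cos (2 * Real.pi * (((a - b).valMinAbs : ℤ) : ℝ) / M) =
      Real.cos (2 * Real.pi * ((a.valMinAbs : ℤ) : ℝ) / M -
        2 * Real.pi * ((b.valMinAbs : ℤ) : ℝ) / M) := by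
  have hM : (M : ℝ) ≠ 0 := Nat.cast_ne_zero.2 (NeZero.ne M)
  have h : (((a - b).valMinAbs : ℤ) : ZMod M) = ((a.valMinAbs - b.valMinAbs : ℤ) : ZMod M) := by
    push_cast
    simp only [ZMod.coe_valMinAbs]
  rw [ZMod.intCast_eq_intCast_iff_dvd_sub] at h
  obtain ⟨n, hn⟩ := h
  have e : 2 * Real.pi * ((a.valMinAbs : ℤ) : ℝ) / M - 2 * Real.pi * ((b.valMinAbs : ℤ) : ℝ) / M =
      2 * Real.pi * (((a - b).valMinAbs : ℤ) : ℝ) / M + (n : ℝ) * (2 * Real.pi) := by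
    have hn' : ((a.valMinAbs : ℤ) : ℝ) - ((b.valMinAbs : ℤ) : ℝ) -
        (((a - b).valMinAbs : ℤ) : ℝ) = (M : ℝ) * n := by exact_mod_cast hn
    field_simp
    linarith
  rw [e, Real.cos_add_int_mul_two_pi]

variable {d M : ℕ} [NeZero M]

theorem es_eq (k : Tor d M) :
    es k = ∑ i, 2 * Real.cos (2 * Real.pi * (((k i).valMinAbs : ℤ) : ℝ) / M) := by
  rw [es, ds]
  have h : (2 * (d : ℝ)) = ∑ _i : Fin d, (2 : ℝ) := by
    rw [Finset.sum_const, Finset.card_univ, Fintype.card_fin, nsmul_eq_mul]; ring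
  rw [h, ← Finset.sum_sub_distrib]
  refine Finset.sum_congr rfl fun i _ => ?_
  ring

theorem es_add (p k : Tor d M) (r : ℝ)
    (h : ∀ i, |Real.cos (Real.pi * ((p i).valMinAbs : ℝ) / M)| < r) :
    |es k + es (p - k)| ≤ 4 * d * r := by
  rw [es_eq, es_eq, ← Finset.sum_add_distrib]
  refine (Finset.abs_sum_le_sum_abs _ _).trans ?_
  have h1 : ∀ i ∈ (Finset.univ : Finset (Fin d)),
      |2 * Real.cos (2 * Real.pi * (((k i).valMinAbs : ℤ) : ℝ) / M) +
        2 * Real.cos (2 * Real.pi * ((((p - k) i).valMinAbs : ℤ) : ℝ) / M)| ≤ 4 * r := by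
    intro i _
    rw [Pi.sub_apply, cos_sub]
    set x : ℝ := 2 * Real.pi * (((k i).valMinAbs : ℤ) : ℝ) / M with hx
    set y : ℝ := Real.pi * (((p i).valMinAbs : ℤ) : ℝ) / M with hy
    have e2 : 2 * Real.pi * (((p i).valMinAbs : ℤ) : ℝ) / M = 2 * y := by rw [hy]; ring
    rw [e2]
    have e3 : 2 * Real.cos x + 2 * Real.cos (2 * y - x) = 4 * (Real.cos y * Real.cos (x - y)) := by
      have key := cos_two y (x - y)
      have a1 : y + (x - y) = x := by ring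
      have a2 : y - (x - y) = 2 * y - x := by ring
      rw [a1, a2] at key
      exact key
    rw [e3, abs_mul, abs_mul, abs_of_pos (by norm_num : (0 : ℝ) < 4)]
    have h2 : |Real.cos y| ≤ r := (h i).le
    have h3 : |Real.cos (x - y)| ≤ 1 := Real.abs_cos_le_one _
    have h4 : 0 ≤ |Real.cos y| := abs_nonneg _
    have h5 : 0 ≤ |Real.cos (x - y)| := abs_nonneg _
    nlinarith
  refine (Finset.sum_le_sum h1).trans (le_of_eq ?_)
  rw [Finset.sum_const, Finset.card_univ, Fintype.card_fin, nsmul_eq_mul]; ring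

theorem norm_sub (x : ℝ) (z : ℂ) : ‖(x : ℂ) - z‖ = Real.sqrt ((x - z.re) ^ 2 + z.im ^ 2) := by
  rw [Complex.norm_def, Complex.normSq_apply]
  congr 1
  simp only [Complex.sub_re, Complex.ofReal_re, Complex.sub_im, Complex.ofReal_im]
  ring

theorem inv_mul_le (x y : ℝ) (z : ℂ) (hz : 0 < z.im) (hr : 0 < |z.re|) (h : |x + y| ≤ |z.re|) :
    ‖((x : ℂ) - z)⁻¹ * ((y : ℂ) - z)⁻¹‖ ≤
      (‖(x : ℂ) - z‖⁻¹ + ‖(y : ℂ) - z‖⁻¹) / |z.re| := by
  have hne : ∀ t : ℝ, (t : ℂ) - z ≠ 0 := fun t h0 => by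
    have := congrArg Complex.im h0
    simp only [Complex.sub_im, Complex.ofReal_im, Complex.zero_im] at this
    linarith
  set X : ℂ := (x : ℂ) - z with hX
  set Y : ℂ := (y : ℂ) - z with hY
  have hX0 : X ≠ 0 := hne x
  have hY0 : Y ≠ 0 := hne y
  have hs : |z.re| ≤ ‖X + Y‖ := by
    have h1 : |(X + Y).re| ≤ ‖X + Y‖ := Complex.abs_re_le_norm _
    have h2 : (X + Y).re = (x + y) - 2 * z.re := by
      rw [hX, hY]
      simp only [Complex.add_re, Complex.sub_re, Complex.ofReal_re]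
      ring
    rw [h2] at h1
    have h3 : |2 * z.re| ≤ |x + y| + |(x + y) - 2 * z.re| := by
      have := abs_sub_abs_le_abs_sub (2 * z.re) (x + y)
      rw [abs_sub_comm (2 * z.re) (x + y)] at this
      linarith
    rw [abs_mul, abs_of_pos (by norm_num : (0 : ℝ) < 2)] at h3
    linarith
  have hid : X⁻¹ * Y⁻¹ * (X + Y) = X⁻¹ + Y⁻¹ := by
    field_simp
    ring
  rw [le_div_iff₀ hr]
  calc ‖X⁻¹ * Y⁻¹‖ * |z.re| ≤ ‖X⁻¹ * Y⁻¹‖ * ‖X + Y‖ :=
        mul_le_mul_of_nonneg_left hs (norm_nonneg _)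
    _ = ‖X⁻¹ + Y⁻¹‖ := by rw [← norm_mul, hid]
    _ ≤ ‖X⁻¹‖ + ‖Y⁻¹‖ := norm_add_le _ _
    _ = ‖X‖⁻¹ + ‖Y‖⁻¹ := by rw [norm_inv, norm_inv]

/-- the case of a momentum near `(π, .., π)` -/
theorem near (z : ℂ) (p : Tor d M) (r D : ℝ) (hz : 0 < z.im) (hr : 0 < |z.re|)
    (h4 : 4 * d * r ≤ |z.re|) (h : ∀ i, |Real.cos (Real.pi * ((p i).valMinAbs : ℝ) / M)| < r)
    (hD : pm (fun k : Tor d M => (Real.sqrt ((es k - z.re) ^ 2 + z.im ^ 2))⁻¹) ≤ D) :
    ‖bh z p‖ ≤ 2 * D / |z.re| := by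
  have hM : (0 : ℝ) < (M : ℝ) ^ d := by
    have : (0 : ℝ) < M := Nat.cast_pos.2 (Nat.pos_of_ne_zero (NeZero.ne M))
    positivity
  have e0 : ∀ k : Tor d M, ‖(es k : ℂ) - z‖⁻¹ =
      (Real.sqrt ((es k - z.re) ^ 2 + z.im ^ 2))⁻¹ := fun k => by rw [norm_sub]
  have e1 : ∑ k : Tor d M, ‖(es (p - k) : ℂ) - z‖⁻¹ = ∑ k : Tor d M, ‖(es k : ℂ) - z‖⁻¹ :=
    Fintype.sum_equiv (Equiv.subLeft p) _ _ fun k => rfl
  have hD' : ∑ k : Tor d M, ‖(es k : ℂ) - z‖⁻¹ ≤ D * (M : ℝ) ^ d := by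
    rw [pm, div_le_iff₀ hM] at hD
    simp only [e0]
    exact hD
  rw [bh, norm_div, norm_pow, Complex.norm_natCast, div_le_iff₀ hM]
  refine (norm_sum_le _ _).trans ?_
  have h1 : ∀ k ∈ (Finset.univ : Finset (Tor d M)),
      ‖((es k : ℂ) - z)⁻¹ * ((es (p - k) : ℂ) - z)⁻¹‖ ≤
        (‖(es k : ℂ) - z‖⁻¹ + ‖(es (p - k) : ℂ) - z‖⁻¹) / |z.re| := fun k _ =>
    inv_mul_le _ _ z hz hr ((es_add p k r h).trans h4)
  refine (Finset.sum_le_sum h1).trans ?_
  rw [← Finset.sum_div, Finset.sum_add_distrib, e1, div_mul_eq_mul_div]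
  refine div_le_div_of_nonneg_right ?_ hr.le
  linarith

theorem bqb (khb : KhbStmt) (dsu : DsuStmt) : BqbStmt := by
  intro d hd
  obtain ⟨C₁, hC₁, h1⟩ := khb d hd
  obtain ⟨C₂, hC₂, h2⟩ := dsu d hd
  refine ⟨C₁ + 2 * C₂, by linarith, ?_⟩
  intro M _ z r p hz hz2 hM hr hr1 h4
  have hl : 0 ≤ Real.log (1 / z.im) := by
    apply Real.log_nonneg
    rw [le_div_iff₀ hz]
    linarith
  have hl1 : 0 < 1 + Real.log (1 / z.im) := by linarith
  have hd0 : (3 : ℝ) ≤ d := by exact_mod_cast hd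
  have hre : 0 < |z.re| := by
    have : 0 < 4 * (d : ℝ) * r := by positivity
    linarith
  have hA : 0 ≤ Real.sqrt (z.im / r) / z.im := by positivity
  have hB : 0 ≤ 1 / |z.re| := by positivity
  by_cases hc : ∀ i, |Real.cos (Real.pi * ((p i).valMinAbs : ℝ) / M)| < r
  · have hM2 : C₂ / z.im ≤ M := by
      refine le_trans ?_ hM
      rw [div_le_div_iff₀ hz (by positivity)]
      have hzz : z.im ^ 2 ≤ z.im := by nlinarith
      have hc2 : 0 ≤ C₂ := by linarith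
      have hc1 : 0 ≤ C₁ := by linarith
      nlinarith [mul_le_mul_of_nonneg_left hzz hc2, mul_nonneg hc1 hz.le, mul_nonneg hc2 hz.le]
    have h3 := (h2 M z.re z.im hz (by linarith) hM2).2
    have h5 := near z p r _ hz hre h4 hc h3
    refine h5.trans ?_
    have e1 : 2 * (C₂ * (1 + Real.log (1 / z.im))) / |z.re| =
        2 * C₂ * (1 + Real.log (1 / z.im)) * (1 / |z.re|) := by ring
    rw [e1]
    have q1 : 2 * C₂ * (1 + Real.log (1 / z.im)) ≤ (C₁ + 2 * C₂) * (1 + Real.log (1 / z.im)) :=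
      mul_le_mul_of_nonneg_right (by linarith) hl1.le
    have q2 : 0 ≤ (C₁ + 2 * C₂) * (1 + Real.log (1 / z.im)) :=
      mul_nonneg (by linarith) hl1.le
    calc 2 * C₂ * (1 + Real.log (1 / z.im)) * (1 / |z.re|)
        ≤ (C₁ + 2 * C₂) * (1 + Real.log (1 / z.im)) * (1 / |z.re|) :=
          mul_le_mul_of_nonneg_right q1 hB
      _ ≤ (C₁ + 2 * C₂) * (1 + Real.log (1 / z.im)) *
          (Real.sqrt (z.im / r) / z.im + 1 / |z.re|) :=
          mul_le_mul_of_nonneg_left (by linarith) q2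
  · push Not at hc
    obtain ⟨i, hi⟩ := hc
    have hM1 : C₁ / z.im ^ 2 ≤ M := by
      refine le_trans ?_ hM
      exact div_le_div_of_nonneg_right (by linarith) (by positivity)
    have h3 := (h1 M z p i hz hz2 hM1).2
    refine h3.trans ?_
    have q0 : Real.sqrt (z.im / (z.im + |Real.cos (Real.pi * ((p i).valMinAbs : ℝ) / M)|)) ≤
        Real.sqrt (z.im / r) := by
      apply Real.sqrt_le_sqrt
      apply div_le_div_of_nonneg_left hz.le hr
      linarith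
    have hq : 0 ≤ C₁ * (1 + Real.log (1 / z.im)) := mul_nonneg (by linarith) hl1.le
    have q1 : C₁ * (1 + Real.log (1 / z.im)) ≤ (C₁ + 2 * C₂) * (1 + Real.log (1 / z.im)) :=
      mul_le_mul_of_nonneg_right (by linarith) hl1.le
    calc C₁ * (1 + Real.log (1 / z.im)) / z.im *
          Real.sqrt (z.im / (z.im + |Real.cos (Real.pi * ((p i).valMinAbs : ℝ) / M)|))
        ≤ C₁ * (1 + Real.log (1 / z.im)) / z.im * Real.sqrt (z.im / r) :=
          mul_le_mul_of_nonneg_left q0 (div_nonneg hq hz.le)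
      _ = C₁ * (1 + Real.log (1 / z.im)) * (Real.sqrt (z.im / r) / z.im) := by ring
      _ ≤ (C₁ + 2 * C₂) * (1 + Real.log (1 / z.im)) *
          (Real.sqrt (z.im / r) / z.im + 1 / |z.re|) :=
          mul_le_mul q1 (by linarith) hA (le_trans hq q1)

end Pool.Agent.LE.QF.H94
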